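import Pool.Agent.H37.HH.Targets4
import Pool.Agent.H94.CV.HU

/-!
# NCE: the exact number of the characters modulo `d` (MP_347b49_nt)
-/

set_option autoImplicit false

open NumberField NumberField.InfinitePlace Complex Filter Topology
open scoped nonZeroDivisors

namespace Pool.Agent.H19.HH

open Pool.Agent.H37.CV Pool.Agent.H28.RC Pool.Agent.H25.HK
open Pool.Agent.H99.RC (exQ sup_mul_top mul_canc span_ne mul_ne sup_top_of_le sup_top_of_le')
open Pool.Agent.H94.CV.HU

namespace NCE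

variable {K : Type} [Field K] [NumberField K]

theorem hM {m : Ideal (𝓞 K)} (I : M m) : (I : Ideal (𝓞 K)) ∈ (Ideal (𝓞 K))⁰ :=
  mem_nonZeroDivisors_of_ne_zero I.2.1

/-- the class of an ideal prime to `m` -/
noncomputable def cl {m : Ideal (𝓞 K)} (I : M m) : ClassGroup (𝓞 K) := ClassGroup.mk0 ⟨I, hM I⟩

theorem cl_mul {m : Ideal (𝓞 K)} (I J : M m) : cl (I * J) = cl I * cl J := by
  unfold cl
  rw [← map_mul]
  rfl

theorem cl_one {m : Ideal (𝓞 K)} : cl (1 : M m) = 1 := by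
  unfold cl
  rw [← map_one (ClassGroup.mk0)]
  rfl

/-- principal ideals have class `1` -/
theorem cl_span {m : Ideal (𝓞 K)} (I : M m) (x : 𝓞 K) (hx : (I : Ideal (𝓞 K)) = Ideal.span {x}) :
    cl I = 1 := by
  unfold cl
  rw [ClassGroup.mk0_eq_one_iff]
  exact ⟨x, hx⟩

/-- every class contains an ideal prime to `m` -/
theorem ex_cl {m : Ideal (𝓞 K)} (hm : m ≠ ⊥) (c : ClassGroup (𝓞 K)) : ∃ A : M m, cl A = c := by
  obtain ⟨⟨I, hI⟩, hIc⟩ := ClassGroup.mk0_surjective c⁻¹
  have hI0 : I ≠ ⊥ := nonZeroDivisors.ne_zero hI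
  obtain ⟨a, ha⟩ := IsDedekindDomain.exists_sup_span_eq (I := I * m) (J := I)
    Ideal.mul_le_left (mul_ne hI0 hm)
  by_cases ha0 : a = 0
  · subst ha0
    have hmt : m = ⊤ := by
      have h1 : I * m = I * ⊤ := by
        rw [Ideal.mul_top]
        conv_rhs => rw [← ha]
        simp
      exact mul_canc hI0 h1
    obtain ⟨⟨A, hA⟩, hAc⟩ := ClassGroup.mk0_surjective c
    exact ⟨⟨A, nonZeroDivisors.ne_zero hA, by rw [hmt, sup_top_eq]⟩, hAc⟩
  · have haI : a ∈ I := by
      rw [← ha]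
      exact Ideal.mem_sup_right (Ideal.mem_span_singleton_self a)
    obtain ⟨A, hA⟩ : I ∣ Ideal.span {a} := by
      rw [Ideal.dvd_iff_le, Ideal.span_singleton_le_iff_mem]
      exact haI
    have hA0 : A ≠ ⊥ := by
      rintro rfl
      rw [Ideal.mul_bot, Ideal.span_singleton_eq_bot] at hA
      exact ha0 hA
    have hAm : A ⊔ m = ⊤ := by
      have h1 : I * (A ⊔ m) = I * ⊤ := by
        rw [Ideal.mul_sup, ← hA, Ideal.mul_top, sup_comm]
        exact ha
      exact mul_canc hI0 h1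
    refine ⟨⟨A, hA0, hAm⟩, ?_⟩
    have h1 : ClassGroup.mk0 (⟨I, hI⟩ : (Ideal (𝓞 K))⁰) *
        ClassGroup.mk0 ⟨A, mem_nonZeroDivisors_of_ne_zero hA0⟩ = 1 := by
      rw [← map_mul, ClassGroup.mk0_eq_one_iff]
      exact ⟨a, hA.symm⟩
    rw [hIc, inv_mul_eq_one] at h1
    exact h1.symm

end NCE

open NCE in
/-- NCE -/
theorem pf_NCE (hOR : T_OR) : Pool.Agent.H33.HH.T_NCE := by
  classical
  intro K _ _ _ m d hm hmd
  have hd : d ≠ ⊥ := by
    rintro rfl
    exact hm (le_bot_iff.1 hmd)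
  have : Finite (𝓞 K ⧸ d) := Ideal.finiteQuotientOfFreeOfNeBot d hd
  have : Fintype (𝓞 K ⧸ d) := Fintype.ofFinite _
  have : Fintype ((𝓞 K ⧸ d)ˣ ⧸ U d) := Fintype.ofFinite _
  have hcard : Nat.card (𝓞 K ⧸ d)ˣ = Fintype.card ((𝓞 K ⧸ d)ˣ ⧸ U d) * uc d := by
    rw [uc_eq, ← Nat.card_eq_fintype_card, mul_comm]
    exact (U d).card_mul_index.symm
  have hcls : classNumber K = Fintype.card (ClassGroup (𝓞 K)) := rfl
  choose A hA using fun c : ClassGroup (𝓞 K) => ex_cl hm c
  have hnc : nc m d = Fintype.card (ClassGroup (𝓞 K) × ((𝓞 K ⧸ d)ˣ ⧸ U d)) := by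
    refine le_antisymm ?_ ?_
    · -- upper bound
      have hx : ∀ J : M m, ∃ x : 𝓞 K, x ≠ 0 ∧
          (J : Ideal (𝓞 K)) * A (cl J)⁻¹ = Ideal.span {x} := by
        intro J
        have h1 : cl (J * A (cl J)⁻¹) = 1 := by rw [cl_mul, hA, mul_inv_cancel]
        unfold cl at h1
        rw [ClassGroup.mk0_eq_one_iff] at h1
        obtain ⟨x, hx⟩ := h1.principal
        refine ⟨x, ?_, hx⟩
        rintro rfl
        refine (J * A (cl J)⁻¹).2.1 ?_
        unfold cl
        rw [hx]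
        simp
      choose x hx0 hx using hx
      have hxm : ∀ J : M m, Ideal.span {x J} ⊔ m = ⊤ := by
        intro J
        rw [← hx]
        exact (J * A (cl J)⁻¹).2.2
      choose r hr using fun J : M m => (unit_iff d (x J)).1 (sup_top_of_le' (hxm J) hmd)
      refine nc_le hOR hm hmd (T := ClassGroup (𝓞 K) × ((𝓞 K ⧸ d)ˣ ⧸ U d))
        (fun J => (cl J, (QuotientGroup.mk (r J) : (𝓞 K ⧸ d)ˣ ⧸ U d))) ?_
      intro I J hIJ
      simp only [Prod.mk.injEq] at hIJ
      obtain ⟨h1, h2⟩ := hIJ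
      rw [QuotientGroup.eq] at h2
      obtain ⟨u, hu⟩ := h2
      have h3 : r J = r I * Units.map
          ((Ideal.Quotient.mk d : 𝓞 K →+* 𝓞 K ⧸ d) : 𝓞 K →* 𝓞 K ⧸ d) u := by
        rw [hu]
        group
      have h4 : x J - x I * u ∈ d := by
        rw [← Ideal.Quotient.eq, map_mul, hr, hr, h3]
        rfl
      have h5 : Ideal.span {x I * (u : 𝓞 K)} = Ideal.span {x I} :=
        Ideal.span_singleton_mul_right_unit u.isUnit _
      refine ⟨x J, x I * u, hx0 J, mul_ne_zero (hx0 I) u.ne_zero, hxm J, ?_, h4, ?_⟩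
      · rw [h5]
        exact hxm I
      · rw [h5]
        refine mul_canc (A (cl J)⁻¹).2.1 ?_
        have h6 : (I : Ideal (𝓞 K)) * A (cl J)⁻¹ = Ideal.span {x I} := by
          rw [← h1]
          exact hx I
        calc (A (cl J)⁻¹ : Ideal (𝓞 K)) * (Ideal.span {x J} * I) =
            Ideal.span {x J} * ((I : Ideal (𝓞 K)) * A (cl J)⁻¹) := by ring
          _ = Ideal.span {x I} * ((J : Ideal (𝓞 K)) * A (cl J)⁻¹) := by rw [h6, hx]; ring
          _ = _ := by ring
    · -- lower bound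
      choose x hx0 hxm hxr using fun t : (𝓞 K ⧸ d)ˣ ⧸ U d => lift_unit m d hm hmd t.out
      refine bessel hOR hm hmd (fun t => Ideal.span {x t.2} * (A t.1 : Ideal (𝓞 K)))
        (fun t => ⟨mul_ne (span_ne (hx0 t.2)) (A t.1).2.1,
          sup_mul_top (hxm t.2) (A t.1).2.2⟩) ?_
      rintro ⟨i, t⟩ ⟨j, s⟩ ⟨a, b, ha, hb, ham, hbm, hab, hts⟩
      simp only at hts
      have hsp : ∀ (z : 𝓞 K) (hz : z ≠ 0) (hzm : Ideal.span {z} ⊔ m = ⊤) (y : 𝓞 K) (hy : y ≠ 0)
          (hym : Ideal.span {y} ⊔ m = ⊤) (c : ClassGroup (𝓞 K)),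
          cl ((⟨Ideal.span {z}, span_ne hz, hzm⟩ : M m) *
            ((⟨Ideal.span {y}, span_ne hy, hym⟩ : M m) * A c)) = c := by
        intro z hz hzm y hy hym c
        rw [cl_mul, cl_mul, hA, cl_span _ z rfl, cl_span _ y rfl, one_mul, one_mul]
      have hij : i = j := by
        rw [← hsp a ha ham (x t) (hx0 t) (hxm t) i, ← hsp b hb hbm (x s) (hx0 s) (hxm s) j]
        congr 1
        exact Subtype.ext hts
      subst hij
      have hts' : Ideal.span {a} * Ideal.span {x t} = Ideal.span {b} * Ideal.span {x s} := by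
        refine mul_canc (A i).2.1 ?_
        calc (A i : Ideal (𝓞 K)) * (Ideal.span {a} * Ideal.span {x t}) =
            Ideal.span {a} * (Ideal.span {x t} * A i) := by ring
          _ = Ideal.span {b} * (Ideal.span {x s} * A i) := hts
          _ = _ := by ring
      rw [Ideal.span_singleton_mul_span_singleton, Ideal.span_singleton_mul_span_singleton,
        Ideal.span_singleton_eq_span_singleton] at hts'
      obtain ⟨u, hu⟩ := hts'
      have h1 : Ideal.Quotient.mk d a = Ideal.Quotient.mk d b := Ideal.Quotient.eq.2 hab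
      obtain ⟨r, hr⟩ := (unit_iff d b).1 (sup_top_of_le' hbm hmd)
      have h2 := congrArg (Ideal.Quotient.mk d) hu
      rw [map_mul, map_mul, map_mul, h1, hr, hxr, hxr] at h2
      have h3 : t.out * Units.map ((Ideal.Quotient.mk d : 𝓞 K →+* 𝓞 K ⧸ d) : 𝓞 K →* 𝓞 K ⧸ d) u =
          s.out := by
        have h4 : r * (t.out * Units.map
            ((Ideal.Quotient.mk d : 𝓞 K →+* 𝓞 K ⧸ d) : 𝓞 K →* 𝓞 K ⧸ d) u) = r * s.out := by
          apply Units.ext
          push_cast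
          rw [← h2, mul_assoc]
          rfl
        exact mul_left_cancel h4
      have hst : t = s := by
        rw [← QuotientGroup.out_eq' t, ← QuotientGroup.out_eq' s, QuotientGroup.eq]
        rw [← h3]
        have h5 : t.out⁻¹ * (t.out * Units.map
            ((Ideal.Quotient.mk d : 𝓞 K →+* 𝓞 K ⧸ d) : 𝓞 K →* 𝓞 K ⧸ d) u) = Units.map
            ((Ideal.Quotient.mk d : 𝓞 K →+* 𝓞 K ⧸ d) : 𝓞 K →* 𝓞 K ⧸ d) u := by group
        rw [h5]
        exact ⟨u, rfl⟩
      rw [hst]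
  rw [hnc, Fintype.card_prod, hcard, hcls]
  ring

end Pool.Agent.H19.HH
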